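import Mathlib

/-!
# Strongly hyperfinite groups: the answer to Q2 is negative

Continuous actions of a countable discrete group `Γ` on `X` are homomorphisms `Γ →* (X ≃ₜ X)`.
-/

namespace Pool.Agent.Results.MP_e7ecf3_lc.StrongHypNotZ

open Set Filter Topology

/-- A space is zero-dimensional when its clopen sets form a base of the topology. -/
def ZeroDimensional (X : Type) [TopologicalSpace X] : Prop :=
  TopologicalSpace.IsTopologicalBasis {s : Set X | IsClopen s}

/-- The orbit equivalence relation of a continuous action `ρ` of `Γ` on `X`. -/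
def OrbitRel {Γ X : Type} [Group Γ] [TopologicalSpace X] (ρ : Γ →* (X ≃ₜ X)) (x y : X) : Prop :=
  ∃ g : Γ, ρ g x = y

/-- The action `ρ` is free: no nontrivial group element fixes a point. -/
def IsFree {Γ X : Type} [Group Γ] [TopologicalSpace X] (ρ : Γ →* (X ≃ₜ X)) : Prop :=
  ∀ g : Γ, g ≠ 1 → ∀ x : X, ρ g x ≠ x

/-- The relation `E₀` on the Cantor space: two sequences agree at all but finitely many places. -/
def E₀ (u v : ℕ → Bool) : Prop := {n : ℕ | u n ≠ v n}.Finite

/-- A group is strongly hyperfinite if the orbit equivalence relation of each of its free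
continuous actions on a compact zero-dimensional Polish space admits a continuous reduction
to `E₀`. -/
def StronglyHyperfinite (Γ : Type) [Group Γ] : Prop :=
  ∀ (X : Type) [TopologicalSpace X] [CompactSpace X] [PolishSpace X], ZeroDimensional X →
    ∀ ρ : Γ →* (X ≃ₜ X), IsFree ρ →
      ∃ f : X → (ℕ → Bool), Continuous f ∧ ∀ x y : X, OrbitRel ρ x y ↔ E₀ (f x) (f y)

/-- An equivalence relation `E` on a space `X` is topologically orbit equivalent to an action
of `ℤ`: there are a continuous action `τ` of `ℤ` on a compact zero-dimensional Polish space `Y`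
and a homeomorphism `φ : X ≃ₜ Y` mapping each `E`-class onto a `ℤ`-orbit. -/
def OrbitEquivalentToZ (X : Type) [TopologicalSpace X] (E : X → X → Prop) : Prop :=
  ∃ (Y : Type) (_ : TopologicalSpace Y) (_ : CompactSpace Y) (_ : PolishSpace Y)
    (_ : ZeroDimensional Y) (τ : Multiplicative ℤ →* (Y ≃ₜ Y)) (φ : X ≃ₜ Y),
      ∀ x : X, ∃ y : Y, φ '' {x' | E x x'} = {y' | OrbitRel τ y y'}

/-- Every orbit equivalence relation of a free continuous action of `Γ` on a compact
zero-dimensional Polish space is topologically orbit equivalent to an action of `ℤ`. -/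
def AllOrbitEquivalentToZ (Γ : Type) [Group Γ] : Prop :=
  ∀ (X : Type) [TopologicalSpace X] [CompactSpace X] [PolishSpace X], ZeroDimensional X →
    ∀ ρ : Γ →* (X ≃ₜ X), IsFree ρ → OrbitEquivalentToZ X (OrbitRel ρ)

/-! ## Part 1: locally finite groups are strongly hyperfinite -/

section Part1

variable {Γ X : Type} [Group Γ] [TopologicalSpace X]

lemma exists_clopen_section [CompactSpace X] [T2Space X] [TotallyDisconnectedSpace X]
    (ρ : Γ →* (X ≃ₜ X)) (hfree : IsFree ρ) (H : Subgroup Γ) [Finite H] :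
    ∃ D : Set X, IsClopen D ∧ (∀ h ∈ H, h ≠ 1 → ∀ x ∈ D, ρ h x ∉ D) ∧
      ∀ x : X, ∃ h ∈ H, ρ h x ∈ D := by
  classical
  have hHfin : (H : Set Γ).Finite := Set.toFinite _
  let p : Set X → Prop := fun S => ∃ D : Set X, IsClopen D ∧
    (∀ h ∈ H, h ≠ 1 → ∀ x ∈ D, ρ h x ∉ D) ∧ ∀ x ∈ S, ∃ h ∈ H, ρ h x ∈ D
  have key : p univ := by
    refine isCompact_univ.induction_on (p := p) ?_ ?_ ?_ ?_
    · exact ⟨∅, isClopen_empty, by simp, by simp⟩
    · rintro s t hst ⟨D, h1, h2, h3⟩
      exact ⟨D, h1, h2, fun x hx => h3 x (hst hx)⟩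
    · rintro s t ⟨D₁, a1, a2, a3⟩ ⟨D₂, b1, b2, b3⟩
      have hU : IsClopen (⋃ h ∈ (H : Set Γ), (ρ h) ⁻¹' D₁) :=
        hHfin.isClopen_biUnion fun h _ => a1.preimage (ρ h).continuous
      refine ⟨D₁ ∪ (D₂ \ ⋃ h ∈ (H : Set Γ), (ρ h) ⁻¹' D₁), a1.union (b1.diff hU), ?_, ?_⟩
      · rintro h hh h1 x (hx | ⟨hx, hx'⟩) (hy | ⟨hy, hy'⟩)
        · exact a2 h hh h1 x hx hy
        · apply hy'
          simp only [mem_iUnion, mem_preimage, SetLike.mem_coe, exists_prop]
          refine ⟨h⁻¹, H.inv_mem hh, ?_⟩
          have : ρ h⁻¹ (ρ h x) = x := by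
            rw [← Homeomorph.mul_apply, ← map_mul]; simp
          rw [this]; exact hx
        · apply hx'
          simp only [mem_iUnion, mem_preimage, SetLike.mem_coe, exists_prop]
          exact ⟨h, hh, hy⟩
        · exact b2 h hh h1 x hx hy
      · rintro x (hx | hx)
        · obtain ⟨h, hh, hD⟩ := a3 x hx
          exact ⟨h, hh, Or.inl hD⟩
        · obtain ⟨h, hh, hD⟩ := b3 x hx
          by_cases hc : ρ h x ∈ ⋃ h ∈ (H : Set Γ), (ρ h) ⁻¹' D₁
          · simp only [mem_iUnion, mem_preimage, SetLike.mem_coe, exists_prop] at hc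
            obtain ⟨h', hh', hD'⟩ := hc
            refine ⟨h' * h, H.mul_mem hh' hh, Or.inl ?_⟩
            rw [map_mul, Homeomorph.mul_apply]; exact hD'
          · exact ⟨h, hh, Or.inr ⟨hD, hc⟩⟩
    · intro x _
      have hsep : ∀ h : Γ, h ≠ 1 → ∃ V : Set X, IsClopen V ∧ x ∈ V ∧ ∀ y ∈ V, ρ h y ∉ V := by
        intro h h1
        obtain ⟨A, B, hA, hB, hxA, hxB, hAB⟩ := t2_separation (hfree h h1 x).symm
        obtain ⟨V, hV, hxV, hVU⟩ := compact_exists_isClopen_in_isOpen
          (hA.inter (hB.preimage (ρ h).continuous)) ⟨hxA, hxB⟩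
        refine ⟨V, hV, hxV, fun y hy hy' => ?_⟩
        exact Set.disjoint_left.mp hAB (hVU hy').1 (hVU hy).2
      choose! V hV using hsep
      have hfin2 : {h : Γ | h ∈ H ∧ h ≠ 1}.Finite := hHfin.subset fun h hh => hh.1
      have hcl : IsClopen (⋂ h ∈ {h : Γ | h ∈ H ∧ h ≠ 1}, V h) :=
        hfin2.isClopen_biInter fun h hh => (hV h hh.2).1
      refine ⟨⋂ h ∈ {h : Γ | h ∈ H ∧ h ≠ 1}, V h, ?_, ⋂ h ∈ {h : Γ | h ∈ H ∧ h ≠ 1}, V h,
        hcl, ?_, ?_⟩
      · rw [nhdsWithin_univ]
        refine hcl.isOpen.mem_nhds ?_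
        simp only [mem_iInter]
        intro h hh
        exact (hV h hh.2).2.1
      · intro h hh h1 y hy hy'
        simp only [mem_iInter] at hy hy'
        exact (hV h h1).2.2 y (hy h ⟨hh, h1⟩) (hy' h ⟨hh, h1⟩)
      · intro y hy
        exact ⟨1, H.one_mem, by simpa using hy⟩
  obtain ⟨D, h1, h2, h3⟩ := key
  exact ⟨D, h1, h2, fun x => h3 x (mem_univ x)⟩

lemma exists_section_map [CompactSpace X] [T2Space X] [TotallyDisconnectedSpace X]
    (ρ : Γ →* (X ≃ₜ X)) (hfree : IsFree ρ) (H : Subgroup Γ) [Finite H] :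
    ∃ φ : X → Γ, (∀ x, φ x ∈ H) ∧ (∀ g, IsClopen {x | φ x = g}) ∧
      ∀ h ∈ H, ∀ x, φ (ρ h x) = φ x * h⁻¹ := by
  classical
  obtain ⟨D, hD, h1, h2⟩ := exists_clopen_section ρ hfree H
  choose φ hφH hφD using h2
  have huniq : ∀ x, ∀ h ∈ H, ρ h x ∈ D → h = φ x := by
    intro x h hh hx
    by_contra hne
    have h3 : φ x * h⁻¹ ≠ 1 := by
      intro h4
      exact hne (mul_inv_eq_one.mp h4).symm
    refine h1 (φ x * h⁻¹) (H.mul_mem (hφH x) (H.inv_mem hh)) h3 (ρ h x) hx ?_
    have : ρ (φ x * h⁻¹) (ρ h x) = ρ (φ x) x := by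
      rw [← Homeomorph.mul_apply, ← map_mul]; simp
    rw [this]; exact hφD x
  refine ⟨φ, hφH, ?_, ?_⟩
  · intro g
    by_cases hg : g ∈ H
    · have : {x | φ x = g} = (ρ g) ⁻¹' D := by
        ext x
        constructor
        · rintro rfl; exact hφD x
        · intro hx; exact (huniq x g hg hx).symm
      rw [this]; exact hD.preimage (ρ g).continuous
    · have : {x | φ x = g} = ∅ := by
        ext x
        simp only [mem_ofPred_eq, mem_empty_iff_false, iff_false]
        rintro rfl; exact hg (hφH x)
      rw [this]; exact isClopen_empty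
  · intro h hh x
    symm
    apply huniq _ _ (H.mul_mem (hφH x) (H.inv_mem hh))
    have : ρ (φ x * h⁻¹) (ρ h x) = ρ (φ x) x := by
      rw [← Homeomorph.mul_apply, ← map_mul]; simp
    rw [this]; exact hφD x

/-- The bits used in the continuous reduction. -/
noncomputable def bit (ρ : Γ →* (X ≃ₜ X)) (H : ℕ → Subgroup Γ) (φ : ℕ → X → Γ) (C : ℕ → Set X)
    (j : ℕ × Option ℕ × Γ) (x : X) : Bool :=
  open Classical in
  match j with
  | (n, none, g) => decide (φ (n + 1) x * (φ n x)⁻¹ = g)
  | (n, some k, g) => decide (g ∈ H n ∧ k < n ∧ ρ (g * φ n x) x ∈ C k)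

theorem reduction_of_chain [CompactSpace X] [PolishSpace X] [TotallyDisconnectedSpace X]
    [Countable Γ] (H : ℕ → Subgroup Γ) (hmono : Monotone H) (hfin : ∀ n, Finite (H n))
    (hex : ∀ g : Γ, ∃ n, g ∈ H n) (ρ : Γ →* (X ≃ₜ X)) (hfree : IsFree ρ) :
    ∃ f : X → (ℕ → Bool), Continuous f ∧ ∀ x y : X, OrbitRel ρ x y ↔ E₀ (f x) (f y) := by
  classical
  have hsec : ∀ n, ∃ φ : X → Γ, (∀ x, φ x ∈ H n) ∧ (∀ g, IsClopen {x | φ x = g}) ∧
      ∀ h ∈ H n, ∀ x, φ (ρ h x) = φ x * h⁻¹ := fun n => by
    have := hfin n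
    exact exists_section_map ρ hfree (H n)
  choose φ hφH hφcl hφeq using hsec
  have : Countable (TopologicalSpace.Clopens X) :=
    TopologicalSpace.Clopens.countable_iff_secondCountable.mpr inferInstance
  obtain ⟨C', hC'⟩ := exists_surjective_nat (TopologicalSpace.Clopens X)
  let C : ℕ → Set X := fun k => (C' k : Set X)
  have hCcl : ∀ k, IsClopen (C k) := fun k => (C' k).isClopen
  have hCsep : ∀ u v : X, (∀ k, u ∈ C k ↔ v ∈ C k) → u = v := by
    intro u v huv
    by_contra hne
    obtain ⟨A, hA, huA, hvA⟩ := exists_isClopen_of_totally_separated hne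
    obtain ⟨k, hk⟩ := hC' ⟨A, hA⟩
    have : C k = A := by simp only [C, hk]; rfl
    have h := huv k
    rw [this] at h
    exact hvA (h.mp huA)
  let b := bit ρ H φ C
  have hcomp : ∀ a c : Γ, ∀ x : X, ρ (a * c) x = ρ a (ρ c x) := fun a c x => by
    rw [map_mul, Homeomorph.mul_apply]
  -- each bit is clopen
  have hclosed_range : ∀ n, (Set.range (φ n)).Finite := fun n => by
    have := hfin n
    exact (Set.toFinite (H n : Set Γ)).subset (by rintro _ ⟨x, rfl⟩; exact hφH n x)
  have hbcont : ∀ j, Continuous (b j) := by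
    intro j
    have hopen : ∀ (P : Γ → Γ → X → Prop), (∀ a c, IsClopen {x | P a c x}) → ∀ n m : ℕ,
        IsOpen {x | P (φ n x) (φ m x) x} := by
      intro P hP n m
      have : {x | P (φ n x) (φ m x) x} =
          ⋃ (a : Γ) (c : Γ), {x | φ n x = a} ∩ {x | φ m x = c} ∩ {x | P a c x} := by
        ext x
        simp only [mem_ofPred_eq, mem_iUnion, mem_inter_iff]
        constructor
        · intro hx; exact ⟨_, _, ⟨rfl, rfl⟩, hx⟩
        · rintro ⟨a, c, ⟨rfl, rfl⟩, hx⟩; exact hx
      rw [this]
      exact isOpen_iUnion fun a => isOpen_iUnion fun c =>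
        ((hφcl n a).isOpen.inter (hφcl m c).isOpen).inter (hP a c).isOpen
    have hclopen : ∀ (P : Γ → Γ → X → Prop), (∀ a c, IsClopen {x | P a c x}) → ∀ n m : ℕ,
        IsClopen {x | P (φ n x) (φ m x) x} := by
      intro P hP n m
      refine ⟨?_, hopen P hP n m⟩
      rw [← isOpen_compl_iff]
      exact hopen (fun a c x => ¬ P a c x) (fun a c => (hP a c).compl) n m
    have hdec : ∀ (P : X → Prop) (_ : DecidablePred P), IsClopen {x | P x} →
        Continuous (fun x => decide (P x)) := by
      intro P _ hP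
      rw [continuous_discrete_rng]
      intro t
      cases t with
      | true =>
        have : (fun x => decide (P x)) ⁻¹' {true} = {x | P x} := by ext x; simp
        rw [this]; exact hP.isOpen
      | false =>
        have : (fun x => decide (P x)) ⁻¹' {false} = {x | P x}ᶜ := by ext x; simp
        rw [this]; exact hP.compl.isOpen
    obtain ⟨n, k, g⟩ := j
    cases k with
    | none =>
      refine hdec (fun x => φ (n + 1) x * (φ n x)⁻¹ = g) _ ?_
      refine hclopen (fun a c _ => a * c⁻¹ = g) (fun a c => ?_) (n + 1) n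
      by_cases h : a * c⁻¹ = g
      · simp [h, isClopen_univ]
      · simp [h, isClopen_empty]
    | some k =>
      have hcl : IsClopen {x | g ∈ H n ∧ k < n ∧ ρ (g * φ n x) x ∈ C k} := by
        refine hclopen (fun a _ x => g ∈ H n ∧ k < n ∧ ρ (g * a) x ∈ C k) (fun a c => ?_) n n
        by_cases h : g ∈ H n ∧ k < n
        · have : {x | g ∈ H n ∧ k < n ∧ ρ (g * a) x ∈ C k} = (ρ (g * a)) ⁻¹' (C k) := by
            ext x; simp [h.1, h.2]
          rw [this]; exact (hCcl k).preimage (ρ (g * a)).continuous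
        · have : {x | g ∈ H n ∧ k < n ∧ ρ (g * a) x ∈ C k} = ∅ := by
            ext x; simp only [mem_ofPred_eq, mem_empty_iff_false, iff_false]
            rintro ⟨h1, h2, _⟩; exact h ⟨h1, h2⟩
          rw [this]; exact isClopen_empty
      exact hdec _ _ hcl
  -- the index set is countably infinite
  obtain ⟨e⟩ : Nonempty (ℕ ≃ ℕ × Option ℕ × Γ) := nonempty_equiv_of_countable
  refine ⟨fun x m => b (e m) x, continuous_pi fun m => hbcont (e m), ?_⟩
  intro x y
  have hE₀ : E₀ (fun m => b (e m) x) (fun m => b (e m) y) ↔ {j | b j x ≠ b j y}.Finite := by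
    unfold E₀
    have : {n : ℕ | b (e n) x ≠ b (e n) y} = e ⁻¹' {j | b j x ≠ b j y} := rfl
    rw [this]
    constructor
    · intro h
      have := h.image e
      rwa [Set.image_preimage_eq _ e.surjective] at this
    · intro h
      exact h.preimage e.injective.injOn
  rw [hE₀]
  constructor
  · rintro ⟨h, rfl⟩
    obtain ⟨N, hN⟩ := hex h
    have hNn : ∀ n, N ≤ n → h ∈ H n := fun n hn => hmono hn hN
    have hsub : {j : ℕ × Option ℕ × Γ | b j x ≠ b j (ρ h x)} ⊆
        (Set.Iio N) ×ˢ ((insert none (some '' Set.Iio N)) ×ˢ (H N : Set Γ)) := by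
      rintro ⟨n, k, g⟩ hj
      simp only [mem_ofPred_eq] at hj
      have hn : n < N := by
        by_contra hn
        push Not at hn
        apply hj
        have e1 : φ n (ρ h x) = φ n x * h⁻¹ := hφeq n h (hNn n hn) x
        have e2 : φ (n + 1) (ρ h x) = φ (n + 1) x * h⁻¹ := hφeq (n + 1) h (hNn _ (by omega)) x
        cases k with
        | none =>
          simp only [b, bit, e1, e2]
          congr 1
          simp
        | some k =>
          simp only [b, bit, e1]
          have : ρ (g * (φ n x * h⁻¹)) (ρ h x) = ρ (g * φ n x) x := by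
            rw [← hcomp]; congr 2; group
          rw [this]
      refine ⟨hn, ?_, ?_⟩
      · cases k with
        | none => simp
        | some k =>
          simp only [mem_insert_iff, reduceCtorEq, mem_image, mem_Iio, Option.some.injEq,
            exists_eq_right, false_or]
          by_contra hk
          apply hj
          have : ¬ k < n := by omega
          simp [b, bit, this]
      · show g ∈ H N
        by_contra hg
        apply hj
        have h1 : ∀ z, φ (n + 1) z * (φ n z)⁻¹ ≠ g := by
          intro z hz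
          apply hg
          rw [← hz]
          exact (H N).mul_mem (hmono (by omega) (hφH (n + 1) z))
            ((H N).inv_mem (hmono (by omega) (hφH n z)))
        have h2 : g ∉ H n := fun h => hg (hmono (by omega) h)
        cases k with
        | none => simp [b, bit, h1]
        | some k => simp [b, bit, h2]
    have := hfin N
    refine Set.Finite.subset ?_ hsub
    exact (Set.finite_Iio N).prod
      ((((Set.finite_Iio N).image some).insert none).prod (Set.toFinite (H N : Set Γ)))
  · intro hfinite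
    -- find `N` beyond which all bits agree
    obtain ⟨N, hN⟩ : ∃ N, ∀ n, N ≤ n → ∀ k g, b (n, k, g) x = b (n, k, g) y := by
      have h1 := (hfinite.image Prod.fst).bddAbove
      obtain ⟨M, hM⟩ := h1
      refine ⟨M + 1, fun n hn k g => ?_⟩
      by_contra hne
      have := hM ⟨(n, k, g), hne, rfl⟩
      simp at this
      omega
    have hψ : ∀ n, N ≤ n → φ (n + 1) x * (φ n x)⁻¹ = φ (n + 1) y * (φ n y)⁻¹ := by
      intro n hn
      have := hN n hn none (φ (n + 1) x * (φ n x)⁻¹)
      simp only [b, bit, decide_true] at this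
      exact (decide_eq_true_eq.mp this.symm).symm
    -- hence `φ n x * (φ N x)⁻¹ = φ n y * (φ N y)⁻¹`
    have hψ2 : ∀ n, N ≤ n → φ n x * (φ N x)⁻¹ = φ n y * (φ N y)⁻¹ := by
      intro n hn
      induction n, hn using Nat.le_induction with
      | base => simp
      | succ n hn ih =>
        have h1 : φ (n + 1) x * (φ N x)⁻¹ =
            (φ (n + 1) x * (φ n x)⁻¹) * (φ n x * (φ N x)⁻¹) := by group
        have h2 : φ (n + 1) y * (φ N y)⁻¹ =
            (φ (n + 1) y * (φ n y)⁻¹) * (φ n y * (φ N y)⁻¹) := by group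
        rw [h1, h2, hψ n hn, ih]
    have huv : ρ (φ N x) x = ρ (φ N y) y := by
      apply hCsep
      intro k
      let n := max N (k + 1)
      have hn : N ≤ n := le_max_left _ _
      have hk : k < n := lt_of_lt_of_le (Nat.lt_succ_self k) (le_max_right _ _)
      let g : Γ := (φ n x * (φ N x)⁻¹)⁻¹
      have hg : g ∈ H n := (H n).inv_mem ((H n).mul_mem (hφH n x)
        ((H n).inv_mem (hmono hn (hφH N x))))
      have hb := hN n hn (some k) g
      simp only [b, bit, hg, hk, true_and, decide_eq_decide] at hb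
      have e1 : g * φ n x = φ N x := by simp only [g]; group
      have e2 : g * φ n y = φ N y := by simp only [g, hψ2 n hn]; group
      rwa [e1, e2] at hb
    refine ⟨(φ N y)⁻¹ * φ N x, ?_⟩
    rw [hcomp, huv, ← hcomp]
    simp

end Part1

/-! ## Part 2: an action whose orbit relation is not that of a `ℤ`-action -/

section Part2

/-- A family of continuous maps which is multiplicative gives a continuous action. -/
def actionOfMaps {Γ X : Type} [Group Γ] [TopologicalSpace X] (F : Γ → X → X)
    (h1 : ∀ x, F 1 x = x) (hmul : ∀ a b x, F (a * b) x = F a (F b x))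
    (hc : ∀ a, Continuous (F a)) : Γ →* (X ≃ₜ X) where
  toFun a :=
    { toFun := F a
      invFun := F a⁻¹
      left_inv := fun x => by rw [← hmul, inv_mul_cancel, h1]
      right_inv := fun x => by rw [← hmul, mul_inv_cancel, h1]
      continuous_toFun := hc a
      continuous_invFun := hc a⁻¹ }
  map_one' := by ext x; exact h1 x
  map_mul' a b := by ext x; exact hmul a b x

variable {Γ : Type} [Group Γ]

/-- The first two coordinates of the action. -/
def twist (c : Γ → Fin 3) (a : Γ) (p : OnePoint Γ × Fin 3) : OnePoint Γ × Fin 3 :=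
  (p.1.map (a * ·), p.2 + p.1.elim 0 (fun g => c (a * g) - c g))

lemma twist_infty (c : Γ → Fin 3) (a : Γ) (j : Fin 3) :
    twist c a (OnePoint.infty, j) = (OnePoint.infty, j) := by
  simp [twist]

lemma twist_coe (c : Γ → Fin 3) (a g : Γ) (j : Fin 3) :
    twist c a ((g : OnePoint Γ), j) = (((a * g : Γ) : OnePoint Γ), j + (c (a * g) - c g)) := by
  simp [twist]

lemma twist_one (c : Γ → Fin 3) (p : OnePoint Γ × Fin 3) : twist c 1 p = p := by
  obtain ⟨x, j⟩ := p
  induction x using OnePoint.rec with
  | infty => exact twist_infty c 1 j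
  | coe g => rw [twist_coe]; simp

lemma twist_mul (c : Γ → Fin 3) (a b : Γ) (p : OnePoint Γ × Fin 3) :
    twist c (a * b) p = twist c a (twist c b p) := by
  obtain ⟨x, j⟩ := p
  induction x using OnePoint.rec with
  | infty => simp only [twist_infty]
  | coe g =>
    simp only [twist_coe, mul_assoc]
    congr 1
    abel

variable [TopologicalSpace Γ] [DiscreteTopology Γ]

lemma twist_continuous (c : Γ → Fin 3) (hc : ∀ a, {g | c (a * g) ≠ c g}.Finite) (a : Γ) :
    Continuous (twist c a) := by
  have h1 : Continuous (fun x : OnePoint Γ => x.map (a * ·)) := by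
    rw [OnePoint.continuous_iff_from_discrete]
    have : Tendsto (fun x : Γ => a * x) cofinite cofinite :=
      (mul_right_injective a).tendsto_cofinite
    have h2 : Tendsto (fun x : Γ => ((a * x : Γ) : OnePoint Γ)) cofinite
        (𝓝 (OnePoint.infty : OnePoint Γ)) := by
      have h3 : Tendsto ((↑) : Γ → OnePoint Γ) cofinite (𝓝 (OnePoint.infty : OnePoint Γ)) := by
        have := OnePoint.tendsto_coe_infty (X := Γ)
        rwa [coclosedCompact_eq_cocompact, cocompact_eq_cofinite] at this
      exact h3.comp this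
    simpa using h2
  have h2 : Continuous (fun x : OnePoint Γ => x.elim (0 : Fin 3) (fun g => c (a * g) - c g)) := by
    rw [OnePoint.continuous_iff_from_discrete]
    simp only [OnePoint.elim_some, OnePoint.elim_infty]
    refine tendsto_const_nhds.congr' ?_
    have := (hc a)
    rw [EventuallyEq, eventually_cofinite]
    refine this.subset ?_
    intro g hg
    simp only [mem_ofPred_eq] at hg ⊢
    intro h
    apply hg
    rw [h, sub_self]
  unfold twist
  exact (h1.comp continuous_fst).prodMk (continuous_snd.add (h2.comp continuous_fst))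

/-- The action of `Γ` on `(OnePoint Γ × Fin 3) × Y`. -/
def twistAction (c : Γ → Fin 3) (hc : ∀ a, {g | c (a * g) ≠ c g}.Finite)
    {Y : Type} [TopologicalSpace Y] (σ : Γ →* (Y ≃ₜ Y)) :
    Γ →* (((OnePoint Γ × Fin 3) × Y) ≃ₜ ((OnePoint Γ × Fin 3) × Y)) :=
  actionOfMaps (fun a x => (twist c a x.1, σ a x.2))
    (fun x => by simp [twist_one])
    (fun a b x => by simp [twist_mul])
    (fun a => ((twist_continuous c hc a).comp continuous_fst).prodMk
      ((σ a).continuous.comp continuous_snd))

lemma twistAction_apply (c : Γ → Fin 3) (hc : ∀ a, {g | c (a * g) ≠ c g}.Finite)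
    {Y : Type} [TopologicalSpace Y] (σ : Γ →* (Y ≃ₜ Y)) (a : Γ)
    (x : (OnePoint Γ × Fin 3) × Y) :
    twistAction c hc σ a x = (twist c a x.1, σ a x.2) := rfl

theorem not_orbitEquivalentToZ [Infinite Γ] (c : Γ → Fin 3)
    (hc : ∀ a, {g | c (a * g) ≠ c g}.Finite) (hinf : ∀ i, {g | c g = i}.Infinite)
    {Y : Type} [TopologicalSpace Y] [CompactSpace Y] (σ : Γ →* (Y ≃ₜ Y)) (y₀ : Y) :
    ¬ OrbitEquivalentToZ ((OnePoint Γ × Fin 3) × Y) (OrbitRel (twistAction c hc σ)) := by
  rintro ⟨Z, _, _, _, _, τ, φ, hφ⟩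
  set ρ := twistAction c hc σ with hρ
  let t : ℤ → (Z ≃ₜ Z) := fun n => τ (Multiplicative.ofAdd n)
  have ht0 : ∀ z, t 0 z = z := fun z => by simp [t]
  have htadd : ∀ m n z, t (m + n) z = t m (t n z) := fun m n z => by simp [t, ofAdd_add]
  -- `τ`-orbits correspond to `ρ`-orbits
  have hkey : ∀ x x', OrbitRel ρ x x' ↔ ∃ n : ℤ, t n (φ x) = φ x' := by
    intro x x'
    obtain ⟨y, hy⟩ := hφ x
    have hx : φ x ∈ {y' | OrbitRel τ y y'} := by
      rw [← hy]; exact ⟨x, ⟨1, by simp⟩, rfl⟩
    obtain ⟨m, hm⟩ := hx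
    constructor
    · intro h
      have hx' : φ x' ∈ {y' | OrbitRel τ y y'} := by rw [← hy]; exact ⟨x', h, rfl⟩
      obtain ⟨k, hk⟩ := hx'
      refine ⟨Multiplicative.toAdd (k * m⁻¹), ?_⟩
      show τ (k * m⁻¹) (φ x) = φ x'
      rw [← hm, ← hk, ← Homeomorph.mul_apply, ← map_mul]; simp
    · rintro ⟨n, hn⟩
      have hx' : φ x' ∈ φ '' {x' | OrbitRel ρ x x'} := by
        rw [hy]
        refine ⟨Multiplicative.ofAdd n * m, ?_⟩
        rw [map_mul, Homeomorph.mul_apply, hm]; exact hn
      obtain ⟨x'', hx'', he⟩ := hx'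
      rw [← φ.injective he]; exact hx''
  let T : (OnePoint Γ × Fin 3) × Y → (OnePoint Γ × Fin 3) × Y := fun x => φ.symm (t 1 (φ x))
  have hTcont : Continuous T := φ.symm.continuous.comp ((t 1).continuous.comp φ.continuous)
  have hT : ∀ x, OrbitRel ρ x (T x) := fun x => (hkey x (T x)).mpr ⟨1, by simp [T]⟩
  let x₀ : (OnePoint Γ × Fin 3) × Y := (((1 : Γ), 0), y₀)
  let u : ℤ → (OnePoint Γ × Fin 3) × Y := fun n => φ.symm (t n (φ x₀))
  have huT : ∀ n, u (n + 1) = T (u n) := fun n => by
    simp only [u, T, Homeomorph.apply_symm_apply]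
    rw [add_comm, htadd]
  have hρ₀ : ∀ g : Γ, ρ g x₀ = (((g : OnePoint Γ), c g - c 1), σ g y₀) := fun g => by
    rw [hρ, twistAction_apply]
    simp [x₀, twist_coe]
  have hδ : ∀ n, ∃ g, ρ g x₀ = u n := fun n => (hkey x₀ (u n)).mpr ⟨n, by simp [u]⟩
  choose δ hδ using hδ
  have hδu : ∀ n, (u n).1 = ((δ n : OnePoint Γ), c (δ n) - c 1) := fun n => by
    rw [← hδ n, hρ₀]
  have hsurj : ∀ g, ∃ n, δ n = g := by
    intro g
    obtain ⟨n, hn⟩ := (hkey x₀ (ρ g x₀)).mp ⟨g, rfl⟩
    refine ⟨n, ?_⟩
    have h1 : u n = ρ g x₀ := by simp [u, hn]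
    have h2 := hδu n
    rw [h1, hρ₀] at h2
    simp only [Prod.mk.injEq, OnePoint.coe_eq_coe] at h2
    exact h2.1.symm
  -- the orbit of `x₀` under `T` is infinite, so `δ` is injective
  have hinj : Function.Injective δ := by
    have hmain : ∀ m k : ℤ, 0 < k → u (m + k) ≠ u m := by
      intro m k hk heq
      have h1 : t (m + k) (φ x₀) = t m (φ x₀) := by
        have := congrArg φ heq
        simpa [u] using this
      have h2 : t k (φ x₀) = φ x₀ := by
        rw [htadd] at h1
        exact (t m).injective h1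
      have h3 : ∀ q : ℕ, t (k * q) (φ x₀) = φ x₀ := by
        intro q
        induction q with
        | zero => simp [ht0]
        | succ q ih =>
          have : k * ((q + 1 : ℕ) : ℤ) = k * q + k := by push_cast; ring
          rw [this, htadd, h2, ih]
      have h3' : ∀ q : ℕ, t (k * -(q : ℤ)) (φ x₀) = φ x₀ := by
        intro q
        apply (t (k * q)).injective
        rw [← htadd, h3 q]
        have : k * (q : ℤ) + k * -(q : ℤ) = 0 := by ring
        rw [this, ht0]
      have h4 : ∀ q : ℤ, t (k * q) (φ x₀) = φ x₀ := by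
        intro q
        obtain ⟨n, rfl | rfl⟩ := q.eq_nat_or_neg
        · exact h3 n
        · exact h3' n
      have h5 : ∀ n : ℤ, u n = u (n % k) := by
        intro n
        have : n = n % k + k * (n / k) := (Int.emod_add_mul_ediv n k).symm
        simp only [u]
        conv_lhs => rw [this, htadd, h4]
      have h6 : ∀ g : Γ, g ∈ δ '' (Set.Ico 0 k) := by
        intro g
        obtain ⟨n, rfl⟩ := hsurj g
        refine ⟨n % k, ⟨Int.emod_nonneg _ hk.ne', Int.emod_lt_of_pos _ hk⟩, ?_⟩
        have e1 := hδu n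
        have e2 := hδu (n % k)
        rw [← h5 n, e1] at e2
        simp only [Prod.mk.injEq, OnePoint.coe_eq_coe] at e2
        exact e2.1.symm
      have h7 : (Set.univ : Set Γ).Finite :=
        ((Set.finite_Ico 0 k).image δ).subset fun g _ => h6 g
      exact Set.infinite_univ h7
    intro m n hmn
    have hu : u m = u n := by rw [← hδ m, ← hδ n, hmn]
    rcases lt_trichotomy m n with h | h | h
    · exact absurd (by rw [add_sub_cancel]; exact hu.symm) (hmain m (n - m) (by omega))
    · exact h
    · exact absurd (by rw [add_sub_cancel]; exact hu) (hmain n (m - n) (by omega))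
  -- the clopen set where `T` changes the colour
  let B : Set ((OnePoint Γ × Fin 3) × Y) := {x | (T x).1.2 ≠ x.1.2}
  have hBcl : IsClosed B := by
    have : B = (fun x => ((T x).1.2, x.1.2)) ⁻¹' {p : Fin 3 × Fin 3 | p.1 ≠ p.2} := rfl
    rw [this]
    exact (isClosed_discrete _).preimage
      ((continuous_snd.comp (continuous_fst.comp hTcont)).prodMk
        (continuous_snd.comp continuous_fst))
  have hB'cpt : IsCompact ((fun x : (OnePoint Γ × Fin 3) × Y => x.1.1) '' B) :=
    hBcl.isCompact.image (continuous_fst.comp continuous_fst)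
  have hB'inf : (OnePoint.infty : OnePoint Γ) ∉ (fun x : (OnePoint Γ × Fin 3) × Y => x.1.1) '' B := by
    rintro ⟨⟨⟨p, j⟩, y⟩, hx, hp⟩
    simp only at hp
    subst hp
    obtain ⟨g, hg⟩ := hT ((OnePoint.infty, j), y)
    apply hx
    rw [← hg, hρ, twistAction_apply, twist_infty]
  have hS : {g : Γ | (g : OnePoint Γ) ∈ (fun x : (OnePoint Γ × Fin 3) × Y => x.1.1) '' B}.Finite := by
    have := ((OnePoint.isClosed_iff_of_notMem hB'inf).mp hB'cpt.isClosed).2
    exact this.finite_of_discrete
  have hSn : {n : ℤ | δ n ∈ {g : Γ | (g : OnePoint Γ) ∈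
      (fun x : (OnePoint Γ × Fin 3) × Y => x.1.1) '' B}}.Finite := hS.preimage hinj.injOn
  obtain ⟨M₁, hM₁⟩ := hSn.bddAbove
  obtain ⟨M₂, hM₂⟩ := hSn.bddBelow
  have hstep : ∀ n : ℤ, (n < M₂ ∨ M₁ < n) → (u (n + 1)).1.2 = (u n).1.2 := by
    intro n hn
    by_contra hne
    have hmem : n ∈ {n : ℤ | δ n ∈ {g : Γ | (g : OnePoint Γ) ∈
        (fun x : (OnePoint Γ × Fin 3) × Y => x.1.1) '' B}} := by
      refine ⟨u n, ?_, ?_⟩
      · show (T (u n)).1.2 ≠ (u n).1.2
        rw [← huT]; exact hne
      · simp only [hδu n]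
    rcases hn with hn | hn
    · exact absurd (hM₂ hmem) (by omega)
    · exact absurd (hM₁ hmem) (by omega)
  have hright : ∀ n : ℤ, M₁ + 1 ≤ n → (u n).1.2 = (u (M₁ + 1)).1.2 := by
    intro n hn
    induction n, hn using Int.leInduction with
    | base => rfl
    | succ n hn ih => rw [hstep n (Or.inr (by omega)), ih]
  have hleft : ∀ n : ℤ, n ≤ M₂ → (u n).1.2 = (u M₂).1.2 := by
    intro n hn
    induction n, hn using Int.leInductionDown with
    | base => rfl
    | pred n hn ih =>
      rw [← ih]
      have := hstep (n - 1) (Or.inl (by omega))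
      rw [sub_add_cancel] at this
      exact this.symm
  obtain ⟨i, hi1, hi2⟩ : ∃ i : Fin 3, i ≠ (u (M₁ + 1)).1.2 ∧ i ≠ (u M₂).1.2 := by
    generalize (u (M₁ + 1)).1.2 = a
    generalize (u M₂).1.2 = b
    revert a b
    decide
  apply hinf (i + c 1)
  refine ((Set.finite_Ioo M₂ (M₁ + 1)).image δ).subset ?_
  intro g hg
  obtain ⟨n, rfl⟩ := hsurj g
  have hcol : (u n).1.2 = i := by
    rw [hδu n]
    simp only [mem_ofPred_eq] at hg
    simp [hg]
  refine ⟨n, ⟨?_, ?_⟩, rfl⟩
  · by_contra h
    exact hi2 (by rw [← hleft n (by omega), hcol])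
  · by_contra h
    exact hi1 (by rw [← hright n (by omega), hcol])

end Part2

/-! ## Part 3: the group `⊕ ℤ/2` -/

section Part3

/-- The stage at which `g` enters the chain `H`. -/
noncomputable def stage {Γ : Type} [Group Γ] (H : ℕ → Subgroup Γ) (g : Γ) : ℕ :=
  sInf {m | g ∈ H m}

/-- The three-colouring of the group. -/
noncomputable def colour {Γ : Type} [Group Γ] (H : ℕ → Subgroup Γ) (g : Γ) : Fin 3 :=
  Fin.ofNat 3 (stage H g)

lemma colour_almost_invariant {Γ : Type} [Group Γ] (H : ℕ → Subgroup Γ) (hmono : Monotone H)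
    (hfin : ∀ n, Finite (H n)) (hex : ∀ g : Γ, ∃ n, g ∈ H n) (a : Γ) :
    {g | colour H (a * g) ≠ colour H g}.Finite := by
  obtain ⟨N, hN⟩ := hex a
  have := hfin N
  refine (Set.toFinite (H N : Set Γ)).subset ?_
  intro g hg
  by_contra hgN
  apply hg
  have hgN' : g ∉ H N := hgN
  have : {m | a * g ∈ H m} = {m | g ∈ H m} := by
    ext m
    simp only [mem_ofPred_eq]
    rcases le_total N m with h | h
    · exact (H m).mul_mem_cancel_left (hmono h hN)
    · constructor
      · intro h1
        exact absurd (((H N).mul_mem_cancel_left hN).mp (hmono h h1)) hgN'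
      · intro h1
        exact absurd (hmono h h1) hgN'
  simp only [colour, stage, this]

lemma colour_infinite {Γ : Type} [Group Γ] (H : ℕ → Subgroup Γ) (hmono : StrictMono H)
    (i : Fin 3) : {g | colour H g = i}.Infinite := by
  have hstage : ∀ m, ∃ g : Γ, stage H g = m + 1 := by
    intro m
    obtain ⟨g, hg, hg'⟩ := SetLike.exists_of_lt (hmono (Nat.lt_succ_self m))
    refine ⟨g, ?_⟩
    apply le_antisymm
    · exact Nat.sInf_le hg
    · by_contra h
      have hne : {k | g ∈ H k}.Nonempty := ⟨_, hg⟩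
      have h1 : g ∈ H (stage H g) := Nat.sInf_mem hne
      exact hg' (hmono.monotone (by omega) h1)
  choose g hg using hstage
  refine Set.infinite_of_injective_forall_mem (f := fun k : ℕ => g (3 * k + i.val + 2)) ?_ ?_
  · intro k l hkl
    have h1 := congrArg (stage H) hkl
    simp only [hg] at h1
    omega
  · intro k
    simp only [mem_ofPred_eq, colour, hg]
    apply Fin.ext
    have := i.isLt
    simp only [Fin.ofNat_eq_cast, Fin.val_natCast]
    omega

/-- The direct sum of countably many copies of `ℤ/2`, written multiplicatively. -/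
abbrev G : Type := Multiplicative (ℕ →₀ ZMod 2)

/-- The subgroup of elements supported in `{0, …, n - 1}`. -/
def chain (n : ℕ) : Subgroup G where
  carrier := {g | ∀ i, n ≤ i → (Multiplicative.toAdd g) i = 0}
  mul_mem' := by
    intro a b ha hb i hi
    simp [ha i hi, hb i hi]
  one_mem' := by intro i _; simp
  inv_mem' := by
    intro a ha i hi
    simp [ha i hi]

lemma chain_strictMono : StrictMono chain := by
  apply strictMono_nat_of_lt_succ
  intro n
  rw [SetLike.lt_iff_le_and_exists]
  refine ⟨fun g hg i hi => hg i (by omega), ?_⟩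
  refine ⟨Multiplicative.ofAdd (Finsupp.single n 1), ?_, ?_⟩
  · intro i hi
    have : n ≠ i := by omega
    simp [this]
  · intro h
    have := h n le_rfl
    simp at this

lemma chain_finite (n : ℕ) : Finite (chain n) := by
  let f : chain n → (Fin n → ZMod 2) := fun g i => (Multiplicative.toAdd g.1) i
  apply Finite.of_injective f
  intro a b hab
  apply Subtype.ext
  apply Multiplicative.toAdd.injective
  ext i
  by_cases hi : i < n
  · exact congrFun hab ⟨i, hi⟩
  · rw [a.2 i (by omega), b.2 i (by omega)]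

lemma chain_exhaust (g : G) : ∃ n, g ∈ chain n := by
  refine ⟨(Multiplicative.toAdd g).support.sup id + 1, ?_⟩
  intro i hi
  by_contra h
  have := Finset.le_sup (f := id) (Finsupp.mem_support_iff.mpr h)
  simp at this
  omega

instance : Countable G := inferInstanceAs (Countable (ℕ →₀ ZMod 2))

/-- The translation action of `G` on the Cantor space. -/
noncomputable def translation : G →* ((ℕ → ZMod 2) ≃ₜ (ℕ → ZMod 2)) :=
  actionOfMaps (fun g x i => (Multiplicative.toAdd g) i + x i)
    (fun x => by funext i; simp)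
    (fun a b x => by funext i; simp [add_assoc])
    (fun a => continuous_pi fun i =>
      (continuous_of_discreteTopology (f := fun z => (Multiplicative.toAdd a) i + z)).comp
        (continuous_apply i))

lemma translation_free : IsFree translation := by
  intro g hg x hx
  apply hg
  apply Multiplicative.toAdd.injective
  ext i
  have := congrFun hx i
  have h2 : (Multiplicative.toAdd g) i + x i = x i := this
  simpa using h2

/-- **Main theorem.** There is a countable group which is strongly hyperfinite but has a free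
continuous action on a compact zero-dimensional Polish space whose orbit equivalence relation
is not topologically orbit equivalent to an action of `ℤ`. This is a negative answer to Q2. -/
theorem result : ∃ (Γ : Type) (_ : Group Γ) (_ : Countable Γ),
    StronglyHyperfinite Γ ∧ ¬ AllOrbitEquivalentToZ Γ := by
  refine ⟨G, inferInstance, inferInstance, ?_, ?_⟩
  · intro X _ _ _ hX ρ hρ
    have : TotallySeparatedSpace X := totallySeparatedSpace_of_t0_of_basis_clopen hX
    exact reduction_of_chain chain chain_strictMono.monotone chain_finite chain_exhaust ρ hρ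
  · intro hall
    let _ : TopologicalSpace G := ⊥
    have : DiscreteTopology G := ⟨rfl⟩
    have hco := colour_almost_invariant chain chain_strictMono.monotone chain_finite chain_exhaust
    have : Infinite G := inferInstanceAs (Infinite (ℕ →₀ ZMod 2))
    have : PolishSpace (OnePoint G) := by
      obtain ⟨e⟩ : Nonempty (G ≃ ℕ) := nonempty_equiv_of_countable
      let h : G ≃ₜ ℕ :=
        { toEquiv := e
          continuous_toFun := continuous_of_discreteTopology
          continuous_invFun := continuous_of_discreteTopology }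
      exact (LightProfinite.isClosedEmbedding_natUnionInftyEmbedding.comp
        h.onePointCongr.isClosedEmbedding).polishSpace
    refine not_orbitEquivalentToZ (colour chain) hco (colour_infinite chain chain_strictMono)
      translation (fun _ => 0) ?_
    apply hall
    · exact isTopologicalBasis_isClopen
    · intro g hg x hx
      exact translation_free g hg x.2 (congrArg Prod.snd hx)

end Part3

end Pool.Agent.Results.MP_e7ecf3_lc.StrongHypNotZ
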